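import Pool.Agent.H67.HM.Stm2

/-! Crew HM2, part ACT: `(∑ w_l)^j` acts as `dlt^j`, up to small errors. -/

set_option autoImplicit false

open Polynomial MeasureTheory Filter Topology

namespace HM

lemma ACT_tens {N : ℕ} (w' u : RR) (l : Fin N) (S : Finset (Fin N)) :
    ∏ a, em a (if a = l then u else if a ∈ S then w' else (1 : RR)) =
      em l u * ∏ a ∈ S.erase l, em a w' := by
  classical
  rw [← Finset.mul_prod_erase Finset.univ _ (Finset.mem_univ l)]
  congr 1
  · simp
  · have h1 : S.erase l = (Finset.univ.erase l).filter (fun a => a ∈ S) := by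
      ext a; simp [and_comm]
    rw [h1, Finset.prod_filter]
    apply Finset.prod_congr rfl
    intro a ha
    have hal : a ≠ l := Finset.ne_of_mem_erase ha
    rw [if_neg hal]
    by_cases haS : a ∈ S
    · simp [haS]
    · simp [haS]

lemma ACT_key (hN : S_NRM) (hT : S_TEN) (p : ℝ) (hp : 1 ≤ p) (N : ℕ) (w : RR) :
    ∀ (m : ℕ) (y : Fin N → RR) (B : ℝ),
      (∀ α : Fin N → ℕ, (∀ a, α a ≤ m) → ∏ a, Nn p (w ^ α a * y a) ≤ B) →
      Nn p ((∑ l : Fin N, em l w) ^ m * ∏ a, em a (y a)) ≤ (N : ℝ) ^ m * B := by
  classical
  intro m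
  induction m with
  | zero =>
    intro y B h
    rw [pow_zero, one_mul, pow_zero, one_mul, hT.nrm N y p hp]
    have := h (fun _ => 0) (fun _ => le_rfl)
    simpa using this
  | succ m ih =>
    intro y B h
    have h1 : (∑ l : Fin N, em l w) ^ (m + 1) * ∏ a, em a (y a) =
        ∑ l : Fin N, (∑ l : Fin N, em l w) ^ m *
          ∏ a, em a (Function.update y l (w * y l) a) := by
      have h2 : ∀ l : Fin N, ∏ a, em a (Function.update y l (w * y l) a) =
          em l w * ∏ a, em a (y a) := by
        intro l
        rw [← Finset.mul_prod_erase Finset.univ _ (Finset.mem_univ l),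
          ← Finset.mul_prod_erase Finset.univ (fun a => em a (y a)) (Finset.mem_univ l)]
        rw [Function.update_self, map_mul, mul_assoc]
        congr 2
        apply Finset.prod_congr rfl
        intro a ha
        rw [Function.update_of_ne (Finset.ne_of_mem_erase ha)]
      simp_rw [h2]
      rw [← Finset.mul_sum, ← Finset.sum_mul, pow_succ, mul_assoc]
    rw [h1]
    refine le_trans (hN.sum p _ _ hp) ?_
    have h3 : ∀ l ∈ (Finset.univ : Finset (Fin N)), Nn p ((∑ l : Fin N, em l w) ^ m *
          ∏ a, em a (Function.update y l (w * y l) a)) ≤ (N : ℝ) ^ m * B := by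
      intro l _
      apply ih
      intro α hα
      have h4 := h (Function.update α l (α l + 1)) (by
        intro a
        by_cases hal : a = l
        · subst hal; rw [Function.update_self]; have := hα a; omega
        · rw [Function.update_of_ne hal]; have := hα a; omega)
      refine le_trans (le_of_eq ?_) h4
      apply Finset.prod_congr rfl
      intro a _
      by_cases hal : a = l
      · subst hal; rw [Function.update_self, Function.update_self, pow_succ, mul_assoc]
      · rw [Function.update_of_ne hal, Function.update_of_ne hal]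
    refine le_trans (Finset.sum_le_sum h3) ?_
    rw [Finset.sum_const, Finset.card_univ, Fintype.card_fin, nsmul_eq_mul, pow_succ]
    exact le_of_eq (by ring)

lemma ACT_expand {N : ℕ} (w w' : RR) (x : Finset (Fin N) → ℂ) :
    (∑ l : Fin N, em l w) * phi w' x - phi w' (dlt x) =
      ∑ l : Fin N, ∑ S : Finset (Fin N), x S •
        ∏ a, em a (if a = l then (if l ∈ S then w * w' - 1 else w) else
          if a ∈ S then w' else (1 : RR)) := by
  classical
  have h1 : (∑ l : Fin N, em l w) * phi w' x =
      ∑ l : Fin N, ∑ S : Finset (Fin N), x S • (em l w * ∏ a ∈ S, em a w') := by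
    rw [phi, Finset.sum_mul]
    apply Finset.sum_congr rfl
    intro l _
    rw [Finset.mul_sum]
    apply Finset.sum_congr rfl
    intro S _
    rw [mul_smul_comm]
  have h2 : phi w' (dlt x) = ∑ l : Fin N, ∑ S : Finset (Fin N),
      if l ∈ S then x S • ∏ a ∈ S.erase l, em a w' else 0 := by
    have h3 : phi w' (dlt x) = ∑ T : Finset (Fin N), ∑ l : Fin N,
        if l ∈ T then 0 else x (insert l T) • ∏ a ∈ T, em a w' := by
      rw [phi]
      apply Finset.sum_congr rfl
      intro T _
      rw [dlt, Finset.sum_smul]
      have h4 : (Tᶜ : Finset (Fin N)) = Finset.univ.filter (fun l => ¬ l ∈ T) := by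
        ext l; simp
      rw [h4, Finset.sum_filter]
      apply Finset.sum_congr rfl
      intro l _
      by_cases h : l ∈ T <;> simp [h]
    rw [h3, Finset.sum_comm]
    apply Finset.sum_congr rfl
    intro l _
    have e1 : (∑ T : Finset (Fin N), if l ∈ T then (0 : AddMonoidAlgebra ℂ (Fin N → ℤ)) else
        x (insert l T) • ∏ a ∈ T, em a w') =
        ∑ T ∈ Finset.univ.filter (fun T : Finset (Fin N) => ¬ l ∈ T),
          x (insert l T) • ∏ a ∈ T, em a w' := by
      rw [Finset.sum_filter]
      apply Finset.sum_congr rfl
      intro T _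
      by_cases h : l ∈ T <;> simp [h]
    have e2 : (∑ S : Finset (Fin N), if l ∈ S then x S • ∏ a ∈ S.erase l, em a w' else 0) =
        ∑ S ∈ Finset.univ.filter (fun S : Finset (Fin N) => l ∈ S),
          x S • ∏ a ∈ S.erase l, em a w' := by
      rw [Finset.sum_filter]
    rw [e1, e2]
    refine Finset.sum_nbij' (fun T => insert l T) (fun S => S.erase l) ?_ ?_ ?_ ?_ ?_
    · intro T hT
      simp
    · intro S hS
      simp
    · intro T hT
      have : l ∉ T := by simpa using hT
      exact Finset.erase_insert this
    · intro S hS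
      have : l ∈ S := by simpa using hS
      exact Finset.insert_erase this
    · intro T hT
      have : l ∉ T := by simpa using hT
      simp only [Finset.erase_insert this]
  rw [h1, h2, ← Finset.sum_sub_distrib]
  apply Finset.sum_congr rfl
  intro l _
  rw [← Finset.sum_sub_distrib]
  apply Finset.sum_congr rfl
  intro S _
  rw [ACT_tens]
  by_cases hl : l ∈ S
  · rw [if_pos hl, if_pos hl, ← smul_sub]
    congr 1
    rw [← Finset.mul_prod_erase S _ hl, map_sub, map_mul, map_one]
    ring
  · rw [if_neg hl, if_neg hl, sub_zero, Finset.erase_eq_of_notMem hl]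

lemma ACT_mono {p κ κ' : ℝ} {J : ℕ} {w : ℂ[X]} {w' : RR} {M s : ℝ} (h : κ ≤ κ')
    (hP : Pr p κ J w w' M s) : Pr p κ' J w w' M s where
  nonnegM := hP.nonnegM
  nonnegs := hP.nonnegs
  w0 := hP.w0
  w0' := hP.w0'
  nq := hP.nq
  np := hP.np
  inv := hP.inv.trans h
  pow1 := fun n h1 h2 => (hP.pow1 n h1 h2).trans h
  pow2 := fun n h1 h2 => (hP.pow2 n h1 h2).trans h
  nM := hP.nM
  ns := hP.ns
  Ms := fun i hi => (hP.Ms i hi).trans h

theorem ACT_proved (hT : S_TEN) (hN : S_NRM) : S_ACT := by
  classical
  intro p hp N j
  have hp1 : (1 : ℝ) ≤ p := by linarith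
  induction j with
  | zero =>
    intro x ρ hρ
    refine ⟨1, one_pos, ?_⟩
    intro J w w' M s _ _
    rw [pow_zero, one_mul, Function.iterate_zero, id, sub_self, hN.zero p hp1]
    exact hρ.le
  | succ j ih =>
    intro x ρ hρ
    obtain ⟨κ₁, hκ₁, h1⟩ := ih (dlt x) (ρ / 2) (by linarith)
    set C : ℝ := ∑ _l : Fin N, ∑ S : Finset (Fin N), ‖x S‖ * ((N : ℝ) ^ j * 2 ^ N) with hC
    have hC0 : 0 ≤ C := Finset.sum_nonneg fun l _ => Finset.sum_nonneg fun S _ => by positivity
    refine ⟨min κ₁ (min 1 (ρ / (2 * (C + 1)))), by positivity, ?_⟩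
    intro J w w' M s hJ hP
    set κ : ℝ := min κ₁ (min 1 (ρ / (2 * (C + 1)))) with hκ
    have hκ0 : 0 < κ := by positivity
    have hκ1 : κ ≤ 1 := (min_le_right _ _).trans (min_le_left _ _)
    have hκ2 : κ ≤ ρ / (2 * (C + 1)) := (min_le_right _ _).trans (min_le_right _ _)
    have h2 := h1 J w w' M s (by omega) (ACT_mono (min_le_left _ _) hP)
    rw [Function.iterate_succ_apply]
    have h3 : (∑ l : Fin N, em l (tl w)) ^ (j + 1) * phi w' x - phi w' (dlt^[j] (dlt x)) =
        (∑ l : Fin N, em l (tl w)) ^ j * ((∑ l : Fin N, em l (tl w)) * phi w' x -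
          phi w' (dlt x)) + ((∑ l : Fin N, em l (tl w)) ^ j * phi w' (dlt x) -
          phi w' (dlt^[j] (dlt x))) := by ring
    rw [h3]
    refine le_trans (hN.add p _ _ hp1) ?_
    have h4 : Nn p ((∑ l : Fin N, em l (tl w)) ^ j * ((∑ l : Fin N, em l (tl w)) * phi w' x -
          phi w' (dlt x))) ≤ C * κ := by
      rw [ACT_expand, Finset.mul_sum]
      refine le_trans (hN.sum p _ _ hp1) ?_
      rw [hC, Finset.sum_mul]
      apply Finset.sum_le_sum
      intro l _
      rw [Finset.mul_sum, Finset.sum_mul]
      refine le_trans (hN.sum p _ _ hp1) ?_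
      apply Finset.sum_le_sum
      intro S _
      rw [mul_smul_comm, hN.smul p _ _ hp1, mul_assoc]
      apply mul_le_mul_of_nonneg_left _ (norm_nonneg _)
      rw [mul_assoc]
      apply ACT_key hN hT p hp1
      intro α hα
      have h5 : ∀ a, Nn p (tl w ^ α a * (if a = l then (if l ∈ S then tl w * w' - 1 else tl w) else
          if a ∈ S then w' else (1 : RR))) ≤ 2 * (if a = l then κ else 1) := by
        intro a
        have ha := hα a
        by_cases hal : a = l
        · rw [if_pos hal, if_pos hal]
          by_cases hl : l ∈ S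
          · rw [if_pos hl]
            rcases Nat.eq_zero_or_pos (α a) with h0 | h0
            · rw [h0, pow_zero, one_mul]
              linarith [hP.inv]
            · have e1 : tl w ^ α a * (tl w * w' - 1) = tl w ^ (α a + 1) * w' - tl w ^ α a := by
                rw [pow_succ]; ring
              rw [e1]
              have e2 := hP.pow2 (α a + 1) (by omega) (by omega)
              have e3 := hP.pow1 (α a) (by omega) (by omega)
              linarith [hN.sub p (tl w ^ (α a + 1) * w') (tl w ^ α a) hp1]
          · rw [if_neg hl, ← pow_succ]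
            have e3 := hP.pow1 (α a + 1) (by omega) (by omega)
            linarith
        · rw [if_neg hal, if_neg hal]
          by_cases haS : a ∈ S
          · rw [if_pos haS]
            rcases Nat.eq_zero_or_pos (α a) with h0 | h0
            · rw [h0, pow_zero, one_mul]
              linarith [hP.np]
            · rcases Nat.lt_or_ge 1 (α a) with h0' | h0'
              · have e2 := hP.pow2 (α a) (by omega) (by omega)
                linarith
              · have e4 : α a = 1 := by omega
                rw [e4, pow_one]
                have e5 : tl w * w' = (tl w * w' - 1) + 1 := by ring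
                rw [e5]
                have e6 := hN.add p (tl w * w' - 1) 1 hp1
                rw [hN.one p hp1] at e6
                linarith [hP.inv]
          · rw [if_neg haS, mul_one]
            rcases Nat.eq_zero_or_pos (α a) with h0 | h0
            · rw [h0, pow_zero, hN.one p hp1]
              norm_num
            · have e3 := hP.pow1 (α a) (by omega) (by omega)
              linarith
      refine le_trans (Finset.prod_le_prod (fun a _ => hN.nonneg p _) (fun a _ => h5 a)) ?_
      rw [Finset.prod_mul_distrib, Finset.prod_const, Finset.card_univ, Fintype.card_fin,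
        Finset.prod_ite_eq' Finset.univ l (fun _ => κ)]
      simp
    have h6 : C * κ ≤ ρ / 2 := by
      have e1 : C * κ ≤ C * (ρ / (2 * (C + 1))) := mul_le_mul_of_nonneg_left hκ2 hC0
      have e2 : C * (ρ / (2 * (C + 1))) ≤ ρ / 2 := by
        rw [mul_div_assoc', div_le_div_iff₀ (by positivity) (by norm_num)]
        nlinarith
      linarith
    linarith

end HM
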